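import Pool.Agent.H516.PCF.All

/-!
# PCF CF: the product of a polynomial over a fibre (by helper603)
-/

set_option autoImplicit false

namespace Pool.Agent.H603.PCF

open Polynomial Pool.Agent.H516.PCF

theorem cf (hDEG : S_DEG) : S_CF := by
  intro k _ _ d P Q hN i t R hR
  obtain ⟨-, -, -, -, -, h6, -⟩ := hDEG k d P Q hN i
  obtain ⟨hdeg, hlead⟩ := h6 t
  have hP : P ≠ 0 := by
    rintro rfl
    have h1 := hN.degP
    have h2 := hN.two_le
    rw [natDegree_zero] at h1
    omega
  have ha : P.leadingCoeff ^ geom d i ≠ 0 := pow_ne_zero _ (leadingCoeff_ne_zero.2 hP)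
  have hU := IsAlgClosed.splits (gp d P Q i t)
  have hRs := IsAlgClosed.splits R
  have hcard : (gp d P Q i t).roots.card = d ^ i := by
    rw [← hU.natDegree_eq_card_roots, hdeg]
  unfold fib Pool.Agent.H516.PCF.cf
  have h1 : ∀ δ : k, R.eval δ = R.leadingCoeff * (R.roots.map fun c => δ - c).prod :=
    fun δ => hRs.eval_eq_prod_roots δ
  simp only [h1]
  rw [Multiset.prod_map_mul, Multiset.map_const', Multiset.prod_replicate, hcard]
  congr 1
  rw [Multiset.prod_map_prod_map]
  congr 1
  apply Multiset.map_congr rfl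
  intro c _
  have h2 := hU.eval_eq_prod_roots c
  rw [hlead] at h2
  have h3 : ((gp d P Q i t).roots.map fun δ => δ - c).prod =
      (-1) ^ (d ^ i) * ((gp d P Q i t).roots.map fun δ => c - δ).prod := by
    have h4 : ∀ δ : k, δ - c = (-1) * (c - δ) := fun δ => by ring
    simp only [h4]
    rw [Multiset.prod_map_mul, Multiset.map_const', Multiset.prod_replicate, hcard]
  rw [h3, h2]
  field_simp

end Pool.Agent.H603.PCF
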