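import Pool.Agent.H516.PCF.All

/-!
# PCF REG: everything happens in a bounded region (by helper603)
-/

set_option autoImplicit false

namespace Pool.Agent.H603.PCF

open Polynomial Pool.Agent.H516.PCF

theorem reg (hNAB : S_NAB) (hEVAL : S_EVAL) (hESC : S_ESC) (hFIB : S_FIB) : S_REG := by
  intro F _ _ _ p w d P Q A O hL γ κ
  obtain ⟨-, hneg, -⟩ := hNAB F p w hL.prime hL.na
  obtain ⟨R₀, hR₀⟩ := hESC F p w hL.prime hL.na d P Q hL.nrm hL.nonrep
  -- the escape region is forward invariant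
  have hesc : ∀ R : ℝ, R₀ ≤ R → ∀ x : F, x ≠ 0 → w x < -R → ∀ n : ℕ,
      (qn d P Q n).eval x ≠ 0 ∧ fn d P Q n x ≠ 0 ∧ w (fn d P Q n x) < -R := by
    intro R hR x hx0 hx n
    induction n with
    | zero =>
      have h1 : fn d P Q 0 x = x := by simp [fn, pn, qn, it]
      have h2 : (qn d P Q 0).eval x ≠ 0 := by simp [qn, it]
      rw [h1]
      exact ⟨h2, hx0, hx⟩
    | succ n ih =>
      obtain ⟨h1, h2, h3⟩ := ih
      obtain ⟨h4, h5, h6⟩ := hR₀ R hR _ h2 h3
      obtain ⟨h7, h8, -⟩ := (hEVAL F d P Q hL.nrm n x).1 h1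
      have h9 : (qn d P Q n).eval x ^ d ≠ 0 := pow_ne_zero _ h1
      have h10 : fn d P Q (n + 1) x = P.eval (fn d P Q n x) / Q.eval (fn d P Q n x) := by
        unfold fn at h7 h8 ⊢
        rw [h7, h8, mul_div_mul_left _ _ h9]
      rw [h8, h10]
      exact ⟨mul_ne_zero h9 h4, div_ne_zero h5 h4, h6⟩
  refine ⟨max R₀ (max (-w γ) (-w κ)), fun n β c V hP => ?_⟩
  obtain ⟨hβ, -, hcκ, hne, -⟩ := hP
  obtain ⟨-, hfib, -⟩ := hFIB F d P Q hL.nrm n γ
  have hβγ := ((hfib β).1 hβ).2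
  set R := max R₀ (max (-w γ) (-w κ)) with hRdef
  have h0 : R₀ ≤ R := le_max_left _ _
  have h1 : -w γ ≤ R := (le_max_left _ _).trans (le_max_right _ _)
  have h2 : -w κ ≤ R := (le_max_right _ _).trans (le_max_right _ _)
  have hb : β ≠ 0 → -R ≤ w β := by
    intro hb0
    by_contra hcon
    have h3 := (hesc R h0 β hb0 (not_le.1 hcon) n).2.2
    rw [hβγ] at h3
    linarith
  have hc : c ≠ 0 → -R ≤ w c := by
    intro hc0
    by_contra hcon
    have h3 := (hesc R h0 c hc0 (not_le.1 hcon) n).2.2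
    rw [hcκ] at h3
    linarith
  by_cases hb0 : β = 0
  · have hc0 : c ≠ 0 := fun h => hne (hb0.trans h.symm)
    rw [hb0, zero_sub, hneg c hc0]
    exact hc hc0
  · by_cases hc0 : c = 0
    · rw [hc0, sub_zero]
      exact hb hb0
    · have h3 := hL.na.add β (-c) hb0 (neg_ne_zero.2 hc0) (by rw [← sub_eq_add_neg]; exact sub_ne_zero.2 hne)
      rw [hneg c hc0, ← sub_eq_add_neg] at h3
      exact (le_min (hb hb0) (hc hc0)).trans h3

end Pool.Agent.H603.PCF
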